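import Pool.Agent.H92.OD.Targets

/-!
# A polynomial for which T3 fails gives a situation
-/

set_option autoImplicit false

namespace Pool.Agent.H37.OD

open MvPolynomial Filter Pool.Agent.H92.OD

theorem transcendental_uu (k : Type) [Field k] : Transcendental k (uu k) := by
  rw [transcendental_iff]
  intro p hp
  refine Polynomial.ext fun m => ?_
  have h1 : cf (Polynomial.aeval (uu k) p) (m : ℚ) = p.coeff m := by
    rw [Polynomial.aeval_eq_sum_range' (n := max (p.natDegree + 1) (m + 1))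
      (lt_of_lt_of_le (Nat.lt_succ_self _) (le_max_left _ _)), cf_sum, Finset.sum_eq_single m]
    · rw [smul_HS, cf_sg_mul, uu_pow, cf_sg, sub_zero, if_pos rfl, mul_one]
      rfl
    · intro b _ hb
      rw [smul_HS, cf_sg_mul, uu_pow, cf_sg, sub_zero, if_neg, mul_zero]
      intro h
      exact hb (by exact_mod_cast h.symm)
    · intro h
      exact absurd (Finset.mem_range.2 (lt_of_lt_of_le (Nat.lt_succ_self m) (le_max_right _ _))) h
  rw [← h1, hp, cf_zero, Polynomial.coeff_zero]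

/-- constant sequences -/
noncomputable def cst (𝒰 : Ultrafilter ℕ) (k : Type) [Field k] : HS k →ₐ[k] Gm 𝒰 (HS k) :=
  { (gmH : (ℕ → HS k) →+* Gm 𝒰 (HS k)).comp (RingHom.pi fun _ : ℕ => RingHom.id (HS k)) with
    commutes' := fun _ => rfl }

theorem cst_uu (𝒰 : Ultrafilter ℕ) (k : Type) [Field k] : cst 𝒰 k (uu k) = ug 𝒰 k := rfl

theorem transcendental_ug (𝒰 : Ultrafilter ℕ) (k : Type) [Field k] :
    Transcendental k (ug 𝒰 k) := by
  rw [← cst_uu, Transcendental, isAlgebraic_algHom_iff (cst 𝒰 k) (cst 𝒰 k).toRingHom.injective]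
  exact transcendental_uu k

theorem exists_min {k : Type} [Field k] (q : ℕ) (y : HS k) (h : ¬ Lat q y) :
    ∃ s : ℚ, cf y s ≠ 0 ∧ (¬ ∃ m : ℤ, s * q = m) ∧
      ∀ r < s, cf y r ≠ 0 → ∃ m : ℤ, r * q = m := by
  have h1 : ({r : ℚ | cf y r ≠ 0 ∧ ¬ ∃ m : ℤ, r * q = m} : Set ℚ).IsWF :=
    (HahnSeries.isWF_support (y : HahnSeries ℚ k)).mono (fun r hr => hr.1)
  have h2 : ({r : ℚ | cf y r ≠ 0 ∧ ¬ ∃ m : ℤ, r * q = m} : Set ℚ).Nonempty := by
    by_contra h3
    refine h (fun r hr => ?_)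
    by_contra h4
    exact h3 ⟨r, hr, h4⟩
  refine ⟨h1.min h2, (h1.min_mem h2).1, (h1.min_mem h2).2, fun r hr hr0 => ?_⟩
  by_contra h4
  exact h1.not_lt_min h2 ⟨hr0, h4⟩ hr

theorem pf_SIT (h : T_EDC) : T_SIT := by
  intro k _ _ _ Q hQ hno
  have h0 : ∀ j : ℕ, ∃ y : HS k, ev Q y = 0 ∧ ¬ Lat j.factorial y := by
    intro j
    by_contra h1
    refine hno ⟨j.factorial, Nat.factorial_pos j, fun y hy => ?_⟩
    by_contra h2
    exact h1 ⟨y, hy, h2⟩
  choose y hy1 hy2 using h0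
  choose s hs1 hs2 hs3 using fun j => exists_min _ _ (hy2 j)
  have hnp : ∀ N : ℕ, ∀ᶠ j in ((Filter.hyperfilter ℕ : Ultrafilter ℕ) : Filter ℕ), N ≤ j := by
    intro N
    refine Filter.hyperfilter_le_cofinite ?_
    rw [Nat.cofinite_eq_atTop]
    exact Filter.eventually_ge_atTop N
  have hsol : evD DG (ug (Filter.hyperfilter ℕ) k) Q (gm y) = 0 := by
    rw [evD_gm]
    exact gm_eq_zero_iff.2 (Eventually.of_forall hy1)
  have hu : DG (ug (Filter.hyperfilter ℕ) k) = ug (Filter.hyperfilter ℕ) k :=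
    gm_eq_iff.2 (Eventually.of_forall fun _ => DF_uu)
  obtain ⟨Q', hQ', hsol', hder, hdcl⟩ := h k _ DG (ug (Filter.hyperfilter ℕ) k) (gm y) hu
    (transcendental_ug _ k) ⟨Q, hQ, hsol⟩
  refine ⟨Filter.hyperfilter ℕ, y, s, Q', hnp, hQ', ?_, hs1, hs2, hs3, hdcl, hder⟩
  rw [evD_gm] at hsol'
  exact gm_eq_zero_iff.1 hsol'

end Pool.Agent.H37.OD
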